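import Pool.Agent.Helper49_Pauli.Interface3
import Pool.Agent.Helper41_Pauli.Kern

open MeasureTheory

namespace Pool.Agent.Helper49_Pauli.H14

open Pool.Agent.Helper49_Pauli.TF

variable {ι : Type} [Fintype ι] (p : Par ι)

lemma w_inv (y : X3) : (p.w y)⁻¹ = wgt p.R y := rfl

lemma sq_fA (m Q : ι → ℝ) (y : X3) :
    sq (fA p.k p.c p.θ (fun i => Q i * m i) y) = ∑ i, ∑ j, Q i * Q j *
      (m i * Real.cos (ph p.k p.θ y i) * (m j * Real.cos (ph p.k p.θ y j)) *
        dot (p.c i) (p.c j)) := by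
  unfold sq fA dot
  have : ∀ n : Fin 3, (∑ i, Q i * m i * Real.cos (ph p.k p.θ y i) * p.c i n) ^ 2 =
      ∑ i, ∑ j, (Q i * m i * Real.cos (ph p.k p.θ y i) * p.c i n) *
        (Q j * m j * Real.cos (ph p.k p.θ y j) * p.c j n) := fun n => by
    rw [pow_two, Finset.sum_mul_sum]
  rw [Finset.sum_congr rfl fun n _ => this n, Finset.sum_comm]
  refine Finset.sum_congr rfl fun i _ => ?_
  rw [Finset.sum_comm]
  refine Finset.sum_congr rfl fun j _ => ?_
  rw [Finset.mul_sum, Finset.mul_sum]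
  refine Finset.sum_congr rfl fun n _ => ?_
  ring

lemma integrable_G (m : ι → ℝ) (i j : ι) : Integrable fun y : X3 =>
    (p.w y)⁻¹ ^ 2 * (m i * Real.cos (ph p.k p.θ y i) * (m j * Real.cos (ph p.k p.θ y j)) *
    dot (p.c i) (p.c j)) := by
  have hc : ∀ i, Continuous fun y : X3 => Real.cos (ph p.k p.θ y i) := fun i => by
    unfold ph dot
    fun_prop
  refine (integrable_wgt_sq p.hR).mul_bdd (c := |m i| * |m j| * |dot (p.c i) (p.c j)|) ?_
    (Filter.Eventually.of_forall fun y => ?_)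
  · have h1 := hc i
    have h2 := hc j
    exact Continuous.aestronglyMeasurable (by fun_prop)
  · rw [Real.norm_eq_abs, abs_mul, abs_mul, abs_mul, abs_mul]
    have h1 := Real.abs_cos_le_one (ph p.k p.θ y i)
    have h2 := Real.abs_cos_le_one (ph p.k p.θ y j)
    apply mul_le_mul_of_nonneg_right _ (abs_nonneg _)
    apply mul_le_mul _ _ (by positivity) (by positivity)
    · exact mul_le_of_le_one_right (abs_nonneg _) h1
    · exact mul_le_of_le_one_right (abs_nonneg _) h2

lemma G_form (m Q : ι → ℝ) : ∑ i, ∑ j, Q i * Q j * p.G m i j =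
    ∫ y : X3, ((1 + sq y / p.R ^ 2)⁻¹) ^ 2 * sq (fA p.k p.c p.θ (fun i => Q i * m i) y) := by
  have h1 : ∀ y : X3, ((1 + sq y / p.R ^ 2)⁻¹) ^ 2 *
      sq (fA p.k p.c p.θ (fun i => Q i * m i) y) = ∑ i, ∑ j, Q i * Q j * ((p.w y)⁻¹ ^ 2 *
      (m i * Real.cos (ph p.k p.θ y i) * (m j * Real.cos (ph p.k p.θ y j)) *
        dot (p.c i) (p.c j))) := by
    intro y
    rw [sq_fA, Finset.mul_sum]
    refine Finset.sum_congr rfl fun i _ => ?_
    rw [Finset.mul_sum]
    refine Finset.sum_congr rfl fun j _ => ?_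
    unfold Par.w
    ring
  simp only [h1]
  rw [integral_finsetSum]
  · refine Finset.sum_congr rfl fun i _ => ?_
    rw [integral_finsetSum]
    · refine Finset.sum_congr rfl fun j _ => ?_
      rw [integral_const_mul]
      rfl
    · intro j _
      exact (integrable_G p m i j).const_mul _
  · intro i _
    exact integrable_finsetSum _ fun j _ => (integrable_G p m i j).const_mul _

lemma dot_comm (x y : X3) : dot x y = dot y x := by
  unfold dot
  exact Finset.sum_congr rfl fun i _ => mul_comm _ _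

lemma G_symm (m : ι → ℝ) (i j : ι) : p.G m i j = p.G m j i := by
  unfold Par.G
  congr 1
  funext y
  rw [dot_comm (p.c i)]
  ring

lemma K_symm (i j : ι) : p.K i j = p.K j i := by
  unfold Par.K
  rw [G_symm p _ i j, G_symm p _ i j, mul_comm (Real.sqrt (2 * p.om i))]

lemma quad_K (y : ι → ℝ) :
    quad p.K y = p.κ * p.W (qof p.k y) + p.κ0 * p.Wl (qof p.k y) := by
  unfold quad Par.W Par.Wl
  rw [← G_form, ← G_form, Finset.mul_sum, Finset.mul_sum, ← Finset.sum_add_distrib]
  refine Finset.sum_congr rfl fun i _ => ?_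
  rw [Finset.mul_sum, Finset.mul_sum, ← Finset.sum_add_distrib]
  refine Finset.sum_congr rfl fun j _ => ?_
  unfold Par.K qof Par.om
  rw [div_mul_eq_mul_div, div_mul_eq_mul_div]
  ring

lemma W_nonneg (Q : ι → ℝ) : 0 ≤ p.W Q :=
  integral_nonneg fun y => mul_nonneg (sq_nonneg _) (Finset.sum_nonneg fun _ _ => sq_nonneg _)

lemma Wl_nonneg (Q : ι → ℝ) : 0 ≤ p.Wl Q :=
  integral_nonneg fun y => mul_nonneg (sq_nonneg _) (Finset.sum_nonneg fun _ _ => sq_nonneg _)

lemma row_ineq (K : ι → ι → ℝ) (hs : ∀ i j, K i j = K j i) (hq : ∀ y, 0 ≤ quad K y)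
    (i : ι) (y : ι → ℝ) : (∑ j, K i j * y j) ^ 2 ≤ K i i * quad K y := by
  classical
  have key : ∀ s : ℝ, 0 ≤ K i i * (s * s) + (2 * ∑ j, K i j * y j) * s + quad K y := by
    intro s
    have h := hq (fun j => y j + s * (if j = i then 1 else 0))
    have e : quad K (fun j => y j + s * (if j = i then 1 else 0)) =
        K i i * (s * s) + (2 * ∑ j, K i j * y j) * s + quad K y := by
      unfold quad
      have h1 : ∀ a b : ι, K a b * (y a + s * (if a = i then 1 else 0)) *
          (y b + s * (if b = i then 1 else 0)) = K a b * y a * y b +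
          (if b = i then K a b * y a * s else 0) + ((if a = i then K a b * y b * s else 0) +
          (if a = i then (if b = i then K a b * (s * s) else 0) else 0)) := by
        intro a b
        by_cases ha : a = i <;> by_cases hb : b = i <;> simp [ha, hb] <;> ring
      simp only [h1, Finset.sum_add_distrib, Finset.sum_ite_irrel, Finset.sum_ite_eq',
        Finset.mem_univ, if_true, Finset.sum_const_zero]
      have h2 : ∑ a, K a i * y a * s = (∑ j, K i j * y j) * s := by
        rw [Finset.sum_mul]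
        exact Finset.sum_congr rfl fun a _ => by rw [hs a i]
      rw [h2, ← Finset.sum_mul]
      ring
    rwa [e] at h
  have := discrim_le_zero key
  unfold discrim at this
  nlinarith

/-- The integral of the weight. -/
noncomputable def Iw : ℝ := ∫ y : X3, (wgt 1 y) ^ 2

lemma integral_wgt {R : ℝ} (hR : 0 < R) : ∫ y : X3, wgt R y ^ 2 = R ^ 3 * Iw := by
  have h1 : ∀ y : X3, wgt R y = wgt 1 (R⁻¹ • y) := by
    intro y
    unfold wgt sq
    congr 2
    rw [Finset.sum_div, Finset.sum_div]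
    refine Finset.sum_congr rfl fun j _ => ?_
    rw [Pi.smul_apply, smul_eq_mul]
    field_simp
  simp only [h1]
  rw [Measure.integral_comp_inv_smul (volume : Measure X3) (fun y => wgt 1 y ^ 2) R]
  unfold Iw
  simp only [Module.finrank_fintype_fun_eq_card, Fintype.card_fin, smul_eq_mul]
  rw [abs_of_pos (by positivity)]

lemma Iw_nonneg : 0 ≤ Iw := integral_nonneg fun _ => sq_nonneg _

lemma G_diag_le (m : ι → ℝ) (i : ι) :
    p.G m i i ≤ p.R ^ 3 * Iw * (m i ^ 2 * sq (p.c i)) := by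
  rw [← integral_wgt p.hR, ← integral_mul_const]
  apply integral_mono (integrable_G p m i i) ((integrable_wgt_sq p.hR).mul_const _)
  intro y
  show (p.w y)⁻¹ ^ 2 * _ ≤ wgt p.R y ^ 2 * _
  rw [w_inv]
  apply mul_le_mul_of_nonneg_left _ (sq_nonneg _)
  have hd : dot (p.c i) (p.c i) = sq (p.c i) := by
    unfold dot sq
    exact Finset.sum_congr rfl fun _ _ => (pow_two _).symm
  rw [hd]
  have hsq : 0 ≤ sq (p.c i) := Finset.sum_nonneg fun _ _ => sq_nonneg _
  apply mul_le_mul_of_nonneg_right _ hsq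
  have hcos : Real.cos (ph p.k p.θ y i) ^ 2 ≤ 1 := Real.cos_sq_le_one _
  nlinarith [sq_nonneg (m i)]

theorem kmat : KmatStatement := by
  refine ⟨Iw + 1, by linarith [Iw_nonneg], ?_⟩
  intro ι _ p
  have hq : ∀ y, 0 ≤ quad p.K y := fun y => by
    rw [quad_K]
    exact add_nonneg (mul_nonneg p.hκ.le (W_nonneg p _)) (mul_nonneg p.hκ0.le (Wl_nonneg p _))
  refine ⟨K_symm p, quad_K p, W_nonneg p, Wl_nonneg p,
    fun i y => row_ineq p.K (K_symm p) hq i y, fun i => ?_⟩
  have hom : 0 < p.om i := Real.sqrt_pos.mpr (p.hk i)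
  have h2 : p.om i * p.K i i = (p.κ * p.G (fun i => Real.exp (p.τ * sq (p.k i))) i i +
    p.κ0 * p.G (fun i => Real.exp (-(p.t / 2 * sq (p.k i)))) i i) / 2 := by
    unfold Par.K
    rw [Real.mul_self_sqrt (by positivity)]
    field_simp
  rw [h2]
  have g1 := G_diag_le p (fun i => Real.exp (p.τ * sq (p.k i))) i
  have g2 := G_diag_le p (fun i => Real.exp (-(p.t / 2 * sq (p.k i)))) i
  have e1 : Real.exp (p.τ * sq (p.k i)) ^ 2 = Real.exp (2 * (p.τ * sq (p.k i))) := by
    rw [← Real.exp_nat_mul]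
    norm_num
  have e2 : Real.exp (-(p.t / 2 * sq (p.k i))) ^ 2 = Real.exp (-(p.t * sq (p.k i))) := by
    rw [← Real.exp_nat_mul]
    congr 1
    push_cast
    ring
  simp only [e1, e2] at g1 g2
  have hsq : 0 ≤ sq (p.c i) := Finset.sum_nonneg fun _ _ => sq_nonneg _
  have hR := p.hR
  have hκ := p.hκ
  have hκ0 := p.hκ0
  have k1 := mul_le_mul_of_nonneg_left g1 hκ.le
  have k2 := mul_le_mul_of_nonneg_left g2 hκ0.le
  have hI := Iw_nonneg
  set a := Real.exp (2 * (p.τ * sq (p.k i))) with ha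
  set b := Real.exp (-(p.t * sq (p.k i))) with hb
  have ha0 : 0 < a := Real.exp_pos _
  have hb0 : 0 < b := Real.exp_pos _
  have hX : 0 ≤ p.R ^ 3 * (p.κ * a + p.κ0 * b) * sq (p.c i) := by positivity
  calc _ ≤ (p.κ * (p.R ^ 3 * Iw * (a * sq (p.c i))) + p.κ0 * (p.R ^ 3 * Iw * (b * sq (p.c i)))) / 2 := by
        linarith
    _ = Iw / 2 * (p.R ^ 3 * (p.κ * a + p.κ0 * b) * sq (p.c i)) := by ring
    _ ≤ (Iw + 1) * (p.R ^ 3 * (p.κ * a + p.κ0 * b) * sq (p.c i)) :=
        mul_le_mul_of_nonneg_right (by linarith) hX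
    _ = _ := by ring

end Pool.Agent.Helper49_Pauli.H14
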