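import Pool.Agent.Helper41_Pauli.TrapLim

open MeasureTheory

namespace Pool.Agent.Helper49_Pauli.H14

open Pool.Agent.Helper49_Pauli.TF

lemma nrm_smul {R : ℝ} (hR : 0 ≤ R) (q : X3) : nrm (R • q) = R * nrm q := by
  unfold nrm
  rw [sq_smul, Real.sqrt_mul (sq_nonneg R), Real.sqrt_sq hR]

lemma nrm_sub_comm (p q : X3) : nrm (p - q) = nrm (q - p) := by
  rw [← nrm_neg, neg_sub]

lemma nrm_le_add (p q : X3) : nrm p ≤ nrm q + nrm (p - q) := by
  rw [nrm_eq, nrm_eq, nrm_eq, WithLp.toLp_sub]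
  have := norm_add_le (WithLp.toLp 2 q) (WithLp.toLp 2 p - WithLp.toLp 2 q)
  simpa using this

lemma abs_nrm_sub (p q : X3) : |nrm p - nrm q| ≤ nrm (p - q) := by
  rw [abs_le]
  have h1 := nrm_le_add p q
  have h2 := nrm_le_add q p
  rw [nrm_sub_comm q p] at h2
  constructor <;> linarith

lemma abs_dot_le (p x : X3) : |dot p x| ≤ nrm p * nrm x := by
  rw [dot_eq_inner, nrm_eq, nrm_eq]
  exact abs_real_inner_le_norm _ _

lemma exp_diff {a b m : ℝ} (ha : m ≤ a) (hb : m ≤ b) :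
    |Real.exp (-a) - Real.exp (-b)| ≤ |a - b| * Real.exp (-m) := by
  wlog h : a ≤ b generalizing a b
  · rw [abs_sub_comm, abs_sub_comm a b]
    exact this hb ha (le_of_not_ge h)
  have h1 : Real.exp (-b) ≤ Real.exp (-a) := Real.exp_le_exp.mpr (by linarith)
  rw [abs_of_nonneg (by linarith), abs_of_nonpos (by linarith : a - b ≤ 0)]
  have h2 : Real.exp (-b) = Real.exp (-a) * Real.exp (a - b) := by
    rw [← Real.exp_add]; congr 1; ring
  have h3 : a - b + 1 ≤ Real.exp (a - b) := Real.add_one_le_exp _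
  have h4 : Real.exp (-a) ≤ Real.exp (-m) := Real.exp_le_exp.mpr (by linarith)
  have h5 : 0 < Real.exp (-a) := Real.exp_pos _
  rw [h2]
  calc Real.exp (-a) - Real.exp (-a) * Real.exp (a - b)
      ≤ Real.exp (-a) * (-(a - b)) := by nlinarith
    _ ≤ Real.exp (-m) * (-(a - b)) := mul_le_mul_of_nonneg_right h4 (by linarith)
    _ = _ := by ring

lemma unit_diff {p q : X3} (hp : 0 < nrm p) (hq : 0 < nrm q) (i : Fin 3) :
    |p i / nrm p - q i / nrm q| ≤ 2 * (nrm (p - q) / nrm p) := by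
  have e : p i / nrm p - q i / nrm q = (p i - q i) / nrm p +
      (q i / nrm q) * ((nrm q - nrm p) / nrm p) := by
    field_simp
    ring
  rw [e]
  refine (abs_add_le _ _).trans ?_
  have h1 : |(p i - q i) / nrm p| ≤ nrm (p - q) / nrm p := by
    rw [abs_div, abs_of_pos hp]
    exact div_le_div_of_nonneg_right (abs_le_nrm (p - q) i) hp.le
  have h2 : |q i / nrm q| ≤ 1 := by
    rw [abs_div, abs_of_pos hq, div_le_one hq]
    exact abs_le_nrm q i
  have h3 : |(nrm q - nrm p) / nrm p| ≤ nrm (p - q) / nrm p := by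
    rw [abs_div, abs_of_pos hp, nrm_sub_comm]
    exact div_le_div_of_nonneg_right (abs_nrm_sub q p) hp.le
  rw [abs_mul]
  have h4 : |q i / nrm q| * |(nrm q - nrm p) / nrm p| ≤ 1 * (nrm (p - q) / nrm p) :=
    mul_le_mul h2 h3 (abs_nonneg _) (by norm_num)
  linarith

lemma unit_le {p : X3} (hp : 0 < nrm p) (i : Fin 3) : |p i / nrm p| ≤ 1 := by
  rw [abs_div, abs_of_pos hp, div_le_one hp]
  exact abs_le_nrm p i

lemma ampA_eq (q : X3) (j : Fin 3) : ampA q j = -22 * Real.pi ^ 2 *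
    (Real.exp (-nrm q) * ((Pi.single j 1 : X3) 2 - (q j / nrm q) * (q 2 / nrm q))) := by
  unfold ampA lng yuk
  ring

lemma ampA_lip {p q : X3} (hp : 0 < nrm p) (hq : 0 < nrm q) (j : Fin 3) {m : ℝ}
    (hmp : m ≤ nrm p) (hmq : m ≤ nrm q) :
    |ampA p j - ampA q j| ≤ 22 * Real.pi ^ 2 * (2 * (nrm (p - q) * Real.exp (-m)) +
      4 * (nrm (p - q) / nrm p * Real.exp (-nrm q))) := by
  rw [ampA_eq, ampA_eq, ← mul_sub, abs_mul]
  have hpi : 0 ≤ Real.pi ^ 2 := by positivity
  rw [show |(-22 : ℝ) * Real.pi ^ 2| = 22 * Real.pi ^ 2 by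
    rw [abs_mul, abs_of_nonneg hpi]; norm_num]
  apply mul_le_mul_of_nonneg_left _ (by positivity)
  set δ := (Pi.single j 1 : X3) 2 with hδ
  have hδ1 : |δ| ≤ 1 := abs_single_le j
  have e : Real.exp (-nrm p) * (δ - p j / nrm p * (p 2 / nrm p)) -
      Real.exp (-nrm q) * (δ - q j / nrm q * (q 2 / nrm q)) =
      (Real.exp (-nrm p) - Real.exp (-nrm q)) * (δ - p j / nrm p * (p 2 / nrm p)) +
      Real.exp (-nrm q) * ((q j / nrm q - p j / nrm p) * (q 2 / nrm q) +
        (p j / nrm p) * (q 2 / nrm q - p 2 / nrm p)) := by ring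
  rw [e]
  refine (abs_add_le _ _).trans (add_le_add ?_ ?_)
  · rw [abs_mul]
    have h1 := exp_diff hmp hmq
    have h2 : |Real.exp (-nrm p) - Real.exp (-nrm q)| ≤ nrm (p - q) * Real.exp (-m) :=
      h1.trans (mul_le_mul_of_nonneg_right (abs_nrm_sub p q) (Real.exp_pos _).le)
    have h3 : |δ - p j / nrm p * (p 2 / nrm p)| ≤ 2 := by
      refine (abs_sub _ _).trans ?_
      rw [abs_mul]
      have := mul_le_mul (unit_le hp j) (unit_le hp 2) (abs_nonneg _) (by norm_num)
      linarith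
    calc _ ≤ (nrm (p - q) * Real.exp (-m)) * 2 := mul_le_mul h2 h3 (abs_nonneg _)
          (mul_nonneg (nrm_nonneg _) (Real.exp_pos _).le)
      _ = _ := by ring
  · rw [abs_mul, abs_of_pos (Real.exp_pos _)]
    have h1 : |(q j / nrm q - p j / nrm p) * (q 2 / nrm q) +
        (p j / nrm p) * (q 2 / nrm q - p 2 / nrm p)| ≤ 4 * (nrm (p - q) / nrm p) := by
      refine (abs_add_le _ _).trans ?_
      rw [abs_mul, abs_mul]
      have a1 := unit_diff hp hq j
      have a2 := unit_diff hp hq 2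
      rw [abs_sub_comm] at a1 a2
      have b1 := mul_le_mul a1 (unit_le hq 2) (abs_nonneg _)
        (mul_nonneg (by norm_num) (div_nonneg (nrm_nonneg _) hp.le))
      have b2 := mul_le_mul (unit_le hp j) a2 (abs_nonneg _) (by norm_num)
      linarith
    calc _ ≤ Real.exp (-nrm q) * (4 * (nrm (p - q) / nrm p)) :=
          mul_le_mul_of_nonneg_left h1 (Real.exp_pos _).le
      _ = _ := by ring

lemma ampB_lip {p q : X3} (hp : 0 < nrm p) (hq : 0 < nrm q) (j : Fin 3) {m : ℝ}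
    (hmp : m ≤ nrm p) (hmq : m ≤ nrm q) :
    |ampB p j - ampB q j| ≤ 22 * Real.pi ^ 2 * ((nrm (p - q) * Real.exp (-m)) +
      2 * (nrm (p - q) / nrm p * Real.exp (-nrm q))) := by
  have key : ∀ i : Fin 3, |yuk p * p i - yuk q * q i| ≤ nrm (p - q) * Real.exp (-m) +
      2 * (nrm (p - q) / nrm p * Real.exp (-nrm q)) := by
    intro i
    have e : yuk p * p i - yuk q * q i = (Real.exp (-nrm p) - Real.exp (-nrm q)) * (p i / nrm p) +
        Real.exp (-nrm q) * (p i / nrm p - q i / nrm q) := by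
      unfold yuk
      ring
    rw [e]
    refine (abs_add_le _ _).trans (add_le_add ?_ ?_)
    · rw [abs_mul]
      have h1 := exp_diff hmp hmq
      have h2 : |Real.exp (-nrm p) - Real.exp (-nrm q)| ≤ nrm (p - q) * Real.exp (-m) :=
        h1.trans (mul_le_mul_of_nonneg_right (abs_nrm_sub p q) (Real.exp_pos _).le)
      calc _ ≤ (nrm (p - q) * Real.exp (-m)) * 1 := mul_le_mul h2 (unit_le hp i) (abs_nonneg _)
            (mul_nonneg (nrm_nonneg _) (Real.exp_pos _).le)
        _ = _ := by ring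
    · rw [abs_mul, abs_of_pos (Real.exp_pos _)]
      calc _ ≤ Real.exp (-nrm q) * (2 * (nrm (p - q) / nrm p)) :=
            mul_le_mul_of_nonneg_left (unit_diff hp hq i) (Real.exp_pos _).le
        _ = _ := by ring
  have hpi : 0 ≤ Real.pi ^ 2 := by positivity
  have hR : 0 ≤ nrm (p - q) * Real.exp (-m) + 2 * (nrm (p - q) / nrm p * Real.exp (-nrm q)) :=
    (abs_nonneg _).trans (key 0)
  unfold ampB
  rw [← mul_sub, abs_mul]
  rw [show |(-22 : ℝ) * Real.pi ^ 2| = 22 * Real.pi ^ 2 by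
    rw [abs_mul, abs_of_nonneg hpi]; norm_num]
  apply mul_le_mul_of_nonneg_left _ (by positivity)
  fin_cases j
  · exact key 1
  · have := key 0
    show |yuk p * (-p 0) - yuk q * (-q 0)| ≤ _
    rw [show yuk p * (-p 0) - yuk q * (-q 0) = -(yuk p * p 0 - yuk q * q 0) by ring, abs_neg]
    exact this
  · simpa using hR

/-- The summand. -/
noncomputable def ff (R : ℝ) (x : X3) (j : Fin 3) (q : X3) : ℝ :=
  R ^ 2 * (ampA (R • q) j * Real.cos (dot q x) - ampB (R • q) j * Real.sin (dot q x))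

lemma ff_le {R : ℝ} (hR : 0 < R) (x : X3) (j : Fin 3) (q : X3) :
    |ff R x j q| ≤ 66 * Real.pi ^ 2 * (R ^ 2 * Real.exp (-(R * nrm q))) := by
  unfold ff
  have h1 := abs_ampA_le (R • q) j
  have h2 := abs_ampB_le (R • q) j
  rw [nrm_smul hR.le] at h1 h2
  rw [abs_mul, abs_of_nonneg (sq_nonneg R)]
  have h3 : |ampA (R • q) j * Real.cos (dot q x) - ampB (R • q) j * Real.sin (dot q x)| ≤
      |ampA (R • q) j| + |ampB (R • q) j| := by
    refine (abs_sub _ _).trans (add_le_add ?_ ?_)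
    · rw [abs_mul]
      exact mul_le_of_le_one_right (abs_nonneg _) (Real.abs_cos_le_one _)
    · rw [abs_mul]
      exact mul_le_of_le_one_right (abs_nonneg _) (Real.abs_sin_le_one _)
  calc _ ≤ R ^ 2 * (44 * Real.pi ^ 2 * Real.exp (-(R * nrm q)) +
        22 * Real.pi ^ 2 * Real.exp (-(R * nrm q))) :=
        mul_le_mul_of_nonneg_left (by linarith) (sq_nonneg R)
    _ = _ := by ring

lemma cos_diff (a b : ℝ) : |Real.cos a - Real.cos b| ≤ |a - b| := by
  have h := Real.cos_sub_cos a b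
  rw [h, abs_mul, abs_mul]
  have h1 : |Real.sin ((a + b) / 2)| ≤ 1 := Real.abs_sin_le_one _
  have h2 : |Real.sin ((a - b) / 2)| ≤ |(a - b) / 2| := Real.abs_sin_le_abs
  have h3 : |(a - b) / 2| = |a - b| / 2 := by rw [abs_div]; norm_num
  rw [h3] at h2
  have h4 := mul_le_mul h1 h2 (abs_nonneg _) (by norm_num)
  have h5 : |(-2 : ℝ)| = 2 := by norm_num
  rw [h5]
  linarith

lemma sin_diff (a b : ℝ) : |Real.sin a - Real.sin b| ≤ |a - b| := by
  have h := Real.sin_sub_sin a b
  rw [h, abs_mul, abs_mul]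
  have h1 : |Real.cos ((a + b) / 2)| ≤ 1 := Real.abs_cos_le_one _
  have h2 : |Real.sin ((a - b) / 2)| ≤ |(a - b) / 2| := Real.abs_sin_le_abs
  have h3 : |(a - b) / 2| = |a - b| / 2 := by rw [abs_div]; norm_num
  rw [h3] at h2
  have h4 := mul_le_mul h2 h1 (abs_nonneg _) (by positivity)
  have h5 : |(2 : ℝ)| = 2 := by norm_num
  rw [h5]
  linarith

lemma dot_sub_left (k q x : X3) : dot k x - dot q x = dot (k - q) x := by
  unfold dot
  rw [← Finset.sum_sub_distrib]
  exact Finset.sum_congr rfl fun i _ => by rw [Pi.sub_apply]; ring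

lemma ff_lip {R : ℝ} (hR : 0 < R) (x : X3) (j : Fin 3) {k q : X3} (hk : 0 < nrm k)
    (hq : 0 < nrm q) {m : ℝ} (hmk : m ≤ R * nrm k) (hmq : m ≤ R * nrm q) :
    |ff R x j k - ff R x j q| ≤ 22 * Real.pi ^ 2 * (R ^ 2 * (3 * (R * nrm (k - q) * Real.exp (-m)) +
      6 * (nrm (k - q) / nrm k * Real.exp (-(R * nrm q))) +
      3 * (nrm (k - q) * nrm x * Real.exp (-(R * nrm q))))) := by
  have hpi : 0 ≤ Real.pi ^ 2 := by positivity
  have hRk : 0 < nrm (R • k) := by rw [nrm_smul hR.le]; positivity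
  have hRq : 0 < nrm (R • q) := by rw [nrm_smul hR.le]; positivity
  have a1 := ampA_lip hRk hRq j (m := m) (by rwa [nrm_smul hR.le]) (by rwa [nrm_smul hR.le])
  have b1 := ampB_lip hRk hRq j (m := m) (by rwa [nrm_smul hR.le]) (by rwa [nrm_smul hR.le])
  rw [← smul_sub, nrm_smul hR.le, nrm_smul hR.le, nrm_smul hR.le,
    mul_div_mul_left _ _ hR.ne'] at a1 b1
  have a2 := abs_ampA_le (R • q) j
  have b2 := abs_ampB_le (R • q) j
  rw [nrm_smul hR.le] at a2 b2
  have hd : |dot k x - dot q x| ≤ nrm (k - q) * nrm x := by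
    rw [dot_sub_left]
    exact abs_dot_le _ _
  have hc := (cos_diff (dot k x) (dot q x)).trans hd
  have hs := (sin_diff (dot k x) (dot q x)).trans hd
  have e : ff R x j k - ff R x j q = R ^ 2 * (((ampA (R • k) j - ampA (R • q) j) *
      Real.cos (dot k x) + ampA (R • q) j * (Real.cos (dot k x) - Real.cos (dot q x))) -
      ((ampB (R • k) j - ampB (R • q) j) *
      Real.sin (dot k x) + ampB (R • q) j * (Real.sin (dot k x) - Real.sin (dot q x)))) := by
    unfold ff
    ring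
  rw [e, abs_mul, abs_of_nonneg (sq_nonneg R)]
  have c1 : |(ampA (R • k) j - ampA (R • q) j) * Real.cos (dot k x)| ≤
      |ampA (R • k) j - ampA (R • q) j| := by
    rw [abs_mul]
    exact mul_le_of_le_one_right (abs_nonneg _) (Real.abs_cos_le_one _)
  have c2 : |(ampB (R • k) j - ampB (R • q) j) * Real.sin (dot k x)| ≤
      |ampB (R • k) j - ampB (R • q) j| := by
    rw [abs_mul]
    exact mul_le_of_le_one_right (abs_nonneg _) (Real.abs_sin_le_one _)
  have hnx : 0 ≤ nrm (k - q) * nrm x := mul_nonneg (nrm_nonneg _) (nrm_nonneg _)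
  have c3 : |ampA (R • q) j * (Real.cos (dot k x) - Real.cos (dot q x))| ≤
      44 * Real.pi ^ 2 * Real.exp (-(R * nrm q)) * (nrm (k - q) * nrm x) := by
    rw [abs_mul]
    exact mul_le_mul a2 hc (abs_nonneg _) (by positivity)
  have c4 : |ampB (R • q) j * (Real.sin (dot k x) - Real.sin (dot q x))| ≤
      22 * Real.pi ^ 2 * Real.exp (-(R * nrm q)) * (nrm (k - q) * nrm x) := by
    rw [abs_mul]
    exact mul_le_mul b2 hs (abs_nonneg _) (by positivity)
  have h1 := abs_sub ((ampA (R • k) j - ampA (R • q) j) *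
      Real.cos (dot k x) + ampA (R • q) j * (Real.cos (dot k x) - Real.cos (dot q x)))
      ((ampB (R • k) j - ampB (R • q) j) *
      Real.sin (dot k x) + ampB (R • q) j * (Real.sin (dot k x) - Real.sin (dot q x)))
  have h2 := abs_add_le ((ampA (R • k) j - ampA (R • q) j) * Real.cos (dot k x))
    (ampA (R • q) j * (Real.cos (dot k x) - Real.cos (dot q x)))
  have h3 := abs_add_le ((ampB (R • k) j - ampB (R • q) j) * Real.sin (dot k x))
    (ampB (R • q) j * (Real.sin (dot k x) - Real.sin (dot q x)))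
  have h4 := h1.trans (add_le_add (h2.trans (add_le_add (c1.trans a1) c3))
    (h3.trans (add_le_add (c2.trans b1) c4)))
  refine (mul_le_mul_of_nonneg_left h4 (sq_nonneg R)).trans (le_of_eq ?_)
  ring

end Pool.Agent.Helper49_Pauli.H14
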