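import Pool.Agent.Helper49_Pauli.Interface3

namespace Pool.Agent.Helper14_Pauli

open Pool.Agent.Helper49_Pauli

theorem param : ParamStatement := by
  intro a ha
  refine ⟨100 * (1 + a + a ^ 2 + a⁻¹) * (1 + 2 * a), by positivity, ?_⟩
  intro cut hcut
  obtain ⟨s, hs1, hscut⟩ : ∃ s : ℝ, 1 ≤ s ∧ s ^ (93 : ℝ) = cut := by
    refine ⟨cut ^ ((1 / 93 : ℝ)), Real.one_le_rpow hcut (by norm_num), ?_⟩
    rw [← Real.rpow_mul (by linarith)]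
    norm_num
  have hs0 : 0 < s := by linarith
  have hs0' : 0 ≤ s := hs0.le
  have hle : ∀ x y : ℝ, x ≤ y → s ^ x ≤ s ^ y := fun x y h =>
    Real.rpow_le_rpow_of_exponent_le hs1 h
  have hmul : ∀ x y : ℝ, (s ^ x) ^ y = s ^ (x * y) := fun x y => (Real.rpow_mul hs0' x y).symm
  have hadd : ∀ x y : ℝ, s ^ x * s ^ y = s ^ (x + y) := fun x y => (Real.rpow_add hs0 x y).symm
  have hinv : ∀ x : ℝ, (s ^ x)⁻¹ = s ^ (-x) := fun x => (Real.rpow_neg hs0' x).symm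
  have hz : ∀ (x : ℝ) (n : ℤ), (s ^ x) ^ n = s ^ (x * n) := fun x n => by
    rw [← Real.rpow_intCast, hmul]
  have hn : ∀ (x : ℝ) (n : ℕ), (s ^ x) ^ n = s ^ (x * n) := fun x n => by
    rw [← Real.rpow_natCast, hmul]
  have hone : s ^ (0 : ℝ) = 1 := Real.rpow_zero s
  have hpos : ∀ x : ℝ, 0 < s ^ x := fun x => Real.rpow_pos_of_pos hs0 x
  have htarget : cut ^ ((46 / 31) : ℝ) = s ^ (138 : ℝ) := by
    rw [← hscut, hmul]; norm_num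
  have hfac : 1 + a * (s ^ (117 : ℝ))⁻¹ * (s ^ (-186 : ℝ)) ^ (-(1 / 2) : ℝ) +
      a * (s ^ (117 : ℝ))⁻¹ * (s ^ (-178 : ℝ)) ^ ((1 / 2) : ℝ) * (s ^ (-86 : ℝ)) ^ (-2 : ℤ) ≤
      1 + 2 * a := by
    rw [hinv, hmul, hmul, hz]
    have e1 : a * s ^ (-117 : ℝ) * s ^ ((-186 : ℝ) * -(1 / 2)) ≤ a := by
      rw [mul_assoc, hadd]
      have := hle (-117 + (-186 : ℝ) * -(1 / 2)) 0 (by norm_num)
      rw [hone] at this
      nlinarith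
    have e2 : a * s ^ (-117 : ℝ) * s ^ ((-178 : ℝ) * (1 / 2)) *
        s ^ ((-86 : ℝ) * ((-2 : ℤ) : ℝ)) ≤ a := by
      rw [mul_assoc, mul_assoc, hadd, hadd]
      have := hle (-117 + ((-178 : ℝ) * (1 / 2) + (-86 : ℝ) * ((-2 : ℤ) : ℝ))) 0 (by norm_num)
      rw [hone] at this
      nlinarith
    linarith
  have hfac0 : 0 ≤ 1 + a * (s ^ (117 : ℝ))⁻¹ * (s ^ (-186 : ℝ)) ^ (-(1 / 2) : ℝ) +
      a * (s ^ (117 : ℝ))⁻¹ * (s ^ (-178 : ℝ)) ^ ((1 / 2) : ℝ) * (s ^ (-86 : ℝ)) ^ (-2 : ℤ) := by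
    positivity
  have hS := hpos 138
  have h1S : 1 ≤ s ^ (138 : ℝ) := Real.one_le_rpow hs1 (by norm_num)
  have hinva : 0 < a⁻¹ := by positivity
  refine ⟨s ^ (-86 : ℝ), s ^ (-186 : ℝ), s ^ (-178 : ℝ), s ^ (117 : ℝ), s ^ (129 : ℝ), hpos _,
    ?_, hpos _, hle _ _ (by norm_num), ?_, ?_, hpos _, hpos _, ?_, ?_, ?_, ?_, ?_, ?_⟩
  · rw [← hone]; exact hle _ _ (by norm_num)
  · rw [hn]; exact hle _ _ (by norm_num)
  · rw [← hone]; exact hle _ _ (by norm_num)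
  · rw [← hscut, hadd, ← hone]; exact hle _ _ (by norm_num)
  · rw [← hscut, hn, hadd, ← hone]; exact hle _ _ (by norm_num)
  · rw [htarget]
    have e1 : (s ^ (-86 : ℝ)) ^ (-2 : ℤ) * (s ^ (-86 : ℝ) * cut) ^ (-6 : ℤ) ≤ s ^ (138 : ℝ) := by
      rw [← hscut, hadd, hz, hz, hadd]
      exact hle _ _ (by norm_num)
    have e0 : 0 ≤ (s ^ (-86 : ℝ)) ^ (-2 : ℤ) * (s ^ (-86 : ℝ) * cut) ^ (-6 : ℤ) := by
      have : 0 < cut := by linarith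
      positivity
    calc _ ≤ s ^ (138 : ℝ) * (1 + 2 * a) := mul_le_mul e1 hfac hfac0 hS.le
      _ = 1 * (s ^ (138 : ℝ) * (1 + 2 * a)) := by ring
      _ ≤ (100 * (1 + a + a ^ 2 + a⁻¹)) * (s ^ (138 : ℝ) * (1 + 2 * a)) := by
        apply mul_le_mul_of_nonneg_right _ (by positivity)
        nlinarith
      _ = _ := by ring
  · rw [htarget]
    have e1 : a * (s ^ (129 : ℝ))⁻¹ * (s ^ (-178 : ℝ)) ^ (-(3 / 2) : ℝ) ≤ a * s ^ (138 : ℝ) := by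
      rw [mul_assoc, hinv, hmul, hadd]
      exact mul_le_mul_of_nonneg_left (hle _ _ (by norm_num)) ha.le
    have e2 : a * (s ^ (129 : ℝ))⁻¹ * (s ^ (-178 : ℝ)) ^ (-(1 / 2) : ℝ) *
        (s ^ (-86 : ℝ)) ^ (-2 : ℤ) ≤ a * s ^ (138 : ℝ) := by
      rw [mul_assoc, mul_assoc, hinv, hmul, hz, hadd, hadd]
      exact mul_le_mul_of_nonneg_left (hle _ _ (by norm_num)) ha.le
    have e3 : a * (s ^ (117 : ℝ))⁻¹ * (s ^ (-178 : ℝ)) ^ ((1 / 2) : ℝ) *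
        (s ^ (-86 : ℝ)) ^ (-4 : ℤ) ≤ a * s ^ (138 : ℝ) := by
      rw [mul_assoc, mul_assoc, hinv, hmul, hz, hadd, hadd]
      exact mul_le_mul_of_nonneg_left (hle _ _ (by norm_num)) ha.le
    have e4 : a ^ 2 * (s ^ (117 : ℝ))⁻¹ ^ 2 * (s ^ (-186 : ℝ)) ^ (-2 : ℝ) ≤
        a ^ 2 * s ^ (138 : ℝ) := by
      rw [mul_assoc, hinv, hn, hmul, hadd]
      exact mul_le_mul_of_nonneg_left (hle _ _ (by norm_num)) (by positivity)
    have e5 : a ^ 2 * (s ^ (117 : ℝ))⁻¹ ^ 2 * ((s ^ (-186 : ℝ)) ^ (-(3 / 2) : ℝ) *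
        (s ^ (-178 : ℝ)) ^ ((1 / 2) : ℝ)) * (s ^ (-86 : ℝ)) ^ (-2 : ℤ) ≤
        a ^ 2 * s ^ (138 : ℝ) := by
      rw [mul_assoc, mul_assoc, hinv, hn, hmul, hmul, hz, hadd, hadd, hadd]
      exact mul_le_mul_of_nonneg_left (hle _ _ (by norm_num)) (by positivity)
    calc _ ≤ (3 * a + 2 * a ^ 2) * s ^ (138 : ℝ) := by linarith
      _ ≤ _ := by
        apply mul_le_mul_of_nonneg_right _ hS.le
        nlinarith [mul_pos ha ha, mul_pos (mul_pos ha ha) ha, mul_pos ha hinva]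
  · rw [htarget]
    have e1 : a * s ^ (-178 : ℝ) * cut ^ 3 ≤ a * s ^ (138 : ℝ) := by
      rw [mul_assoc, ← hscut, hn, hadd]
      exact mul_le_mul_of_nonneg_left (hle _ _ (by norm_num)) ha.le
    refine e1.trans ?_
    apply mul_le_mul_of_nonneg_right _ hS.le
    nlinarith [mul_pos ha ha, mul_pos (mul_pos ha ha) ha, mul_pos ha hinva]
  · rw [htarget]
    have e1 : (s ^ (-86 : ℝ)) ^ 4 * cut ^ 5 / a ≤ a⁻¹ * s ^ (138 : ℝ) := by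
      rw [← hscut, hn, hn, hadd, div_eq_inv_mul]
      exact mul_le_mul_of_nonneg_left (hle _ _ (by norm_num)) hinva.le
    have e2 : (s ^ (-86 : ℝ)) ^ 3 * (s ^ (117 : ℝ) * cut ^ 3 +
        s ^ (129 : ℝ) * (s ^ (-178 : ℝ)) ^ (-(3 / 2) : ℝ)) ≤ 2 * s ^ (138 : ℝ) := by
      rw [mul_add, ← hscut, hn, hn, hmul, hadd, hadd, hadd, hadd]
      have h1 := hle (-86 * ((3 : ℕ) : ℝ) + (117 + 93 * ((3 : ℕ) : ℝ))) 138 (by norm_num)
      have h2 := hle (-86 * ((3 : ℕ) : ℝ) + (129 + -178 * -(3 / 2))) 138 (by norm_num)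
      linarith
    calc _ ≤ ((a⁻¹ + 2) * s ^ (138 : ℝ)) * (1 + 2 * a) :=
          mul_le_mul (by linarith) hfac hfac0 (by positivity)
      _ = (a⁻¹ + 2) * (s ^ (138 : ℝ) * (1 + 2 * a)) := by ring
      _ ≤ (100 * (1 + a + a ^ 2 + a⁻¹)) * (s ^ (138 : ℝ) * (1 + 2 * a)) := by
        apply mul_le_mul_of_nonneg_right _ (by positivity)
        nlinarith
      _ = _ := by ring

end Pool.Agent.Helper14_Pauli
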