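import Pool.Agent.Helper49_Pauli.Interface4
import Pool.Agent.Helper14_Pauli.Lip

open MeasureTheory

namespace Pool.Agent.Helper49_Pauli.H14

open Pool.Agent.Helper49_Pauli.TF

lemma nrm_sub_wave {L : ℝ} (hL : 1 ≤ L) (q : X3) :
    nrm (wave L (rnd L q) - q) ≤ 2 * side L := by
  have hL0 : 0 < L := by linarith
  have hs := side_pos hL0
  unfold nrm
  apply Real.sqrt_le_iff.mpr
  refine ⟨by positivity, ?_⟩
  have h : ∀ j, (wave L (rnd L q) - q) j ^ 2 ≤ side L ^ 2 := by
    intro j
    have h3 := dist_wave hL0 q j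
    rw [Pi.sub_apply]
    apply sq_le_sq'
    · linarith [h3.2]
    · linarith [h3.1]
  unfold sq
  rw [Fin.sum_univ_three]
  have := h 0
  have := h 1
  have := h 2
  nlinarith

lemma side_le_nrm {L : ℝ} (hL : 1 ≤ L) {n : Fin 3 → ℤ} (hn : n ≠ 0) : side L ≤ nrm (wave L n) := by
  have hL0 : 0 < L := by linarith
  have hs := side_pos hL0
  obtain ⟨j, hj⟩ := Function.ne_iff.mp hn
  refine le_trans ?_ (abs_le_nrm (wave L n) j)
  rw [wave_eq, abs_mul, abs_of_pos hs]
  have h1 : (1 : ℝ) ≤ |(n j : ℝ)| := by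
    have : (1 : ℤ) ≤ |n j| := Int.one_le_abs hj
    exact_mod_cast this
  nlinarith

/-- The constant in the pointwise bound. -/
noncomputable def CC : ℝ := 22 * Real.pi ^ 2 * (252 * Real.exp 14)

lemma CC_pos : 0 < CC := by
  unfold CC
  positivity

lemma pointwise {R cut L : ℝ} (hR : 0 < R) (hR1 : R ≤ 1) (hL : 1 ≤ L)
    (x : X3) (j : Fin 3) {q : X3} (hq : 0 < nrm q) :
    |stepf L (momenta cut L) (fun n => ff R x j (wave L n)) q - ff R x j q| ≤
      CC * (R ^ 2 * ((1 / nrm q + R + nrm x) * Real.exp (-(R * nrm q)) +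
        Real.exp (-(R * cut / 2)) * Real.exp (-(R / 2 * nrm q)))) := by
  have hL0 : 0 < L := by linarith
  have hside := side_le hL
  have hs := side_pos hL0
  have hpi : 0 < Real.pi ^ 2 := by positivity
  have hx := nrm_nonneg x
  have hk := nrm_nonneg (wave L (rnd L q))
  set k := wave L (rnd L q) with hkdef
  have hd := nrm_sub_wave hL q
  rw [← hkdef] at hd
  have hd0 := nrm_nonneg (k - q)
  have hd14 : nrm (k - q) ≤ 14 := by linarith
  have hqk : nrm q ≤ nrm k + nrm (k - q) := by
    have := nrm_le_add q k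
    rwa [nrm_sub_comm] at this
  have e14 : 1 ≤ Real.exp 14 := Real.one_le_exp (by norm_num)
  have hE := Real.exp_pos (-(R * nrm q))
  have hX : 0 ≤ Real.exp (-(R * cut / 2)) * Real.exp (-(R / 2 * nrm q)) := by positivity
  unfold stepf
  split_ifs with h
  · rw [mem_momenta hL0] at h
    have hkpos : side L ≤ nrm k := side_le_nrm hL h.1
    have hk0 : 0 < nrm k := by linarith
    have hq3 : nrm q ≤ 3 * nrm k := by linarith
    have hm := ff_lip hR x j hk0 hq (m := R * (nrm q - 14)) (by nlinarith) (by nlinarith)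
    refine hm.trans ?_
    have h1 : Real.exp (-(R * (nrm q - 14))) ≤ Real.exp 14 * Real.exp (-(R * nrm q)) := by
      rw [← Real.exp_add]
      apply Real.exp_le_exp.mpr
      nlinarith
    have h2 : nrm (k - q) / nrm k ≤ 42 * (1 / nrm q) := by
      rw [div_le_iff₀ hk0]
      have : 42 * (1 / nrm q) * nrm k = 14 * (3 * nrm k / nrm q) := by ring
      rw [this]
      have : 1 ≤ 3 * nrm k / nrm q := by
        rw [le_div_iff₀ hq]
        linarith
      linarith
    have g1 : R * nrm (k - q) * Real.exp (-(R * (nrm q - 14))) ≤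
        14 * R * (Real.exp 14 * Real.exp (-(R * nrm q))) := by
      apply mul_le_mul _ h1 (Real.exp_pos _).le (by positivity)
      nlinarith
    have g2 : nrm (k - q) / nrm k * Real.exp (-(R * nrm q)) ≤
        42 * (1 / nrm q) * Real.exp (-(R * nrm q)) :=
      mul_le_mul_of_nonneg_right h2 hE.le
    have g3 : nrm (k - q) * nrm x * Real.exp (-(R * nrm q)) ≤
        14 * nrm x * Real.exp (-(R * nrm q)) := by
      apply mul_le_mul_of_nonneg_right _ hE.le
      exact mul_le_mul_of_nonneg_right hd14 hx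
    have hinv : 0 < 1 / nrm q := by positivity
    have g2' : 42 * (1 / nrm q) * Real.exp (-(R * nrm q)) ≤
        42 * (1 / nrm q) * (Real.exp 14 * Real.exp (-(R * nrm q))) := by
      apply mul_le_mul_of_nonneg_left _ (by positivity)
      nlinarith
    have g3' : 14 * nrm x * Real.exp (-(R * nrm q)) ≤
        14 * nrm x * (Real.exp 14 * Real.exp (-(R * nrm q))) := by
      apply mul_le_mul_of_nonneg_left _ (by positivity)
      nlinarith
    have hF : 0 ≤ Real.exp 14 * Real.exp (-(R * nrm q)) := by positivity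
    have t1 : 0 ≤ R * (Real.exp 14 * Real.exp (-(R * nrm q))) := by positivity
    have t3 : 0 ≤ nrm x * (Real.exp 14 * Real.exp (-(R * nrm q))) := by positivity
    unfold CC
    calc 22 * Real.pi ^ 2 * (R ^ 2 * (3 * (R * nrm (k - q) * Real.exp (-(R * (nrm q - 14)))) +
          6 * (nrm (k - q) / nrm k * Real.exp (-(R * nrm q))) +
          3 * (nrm (k - q) * nrm x * Real.exp (-(R * nrm q)))))
        ≤ 22 * Real.pi ^ 2 * (R ^ 2 * (252 * (1 / nrm q + R + nrm x) *
            (Real.exp 14 * Real.exp (-(R * nrm q))))) := by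
          apply mul_le_mul_of_nonneg_left _ (by positivity)
          apply mul_le_mul_of_nonneg_left _ (by positivity)
          nlinarith
      _ ≤ 22 * Real.pi ^ 2 * (R ^ 2 * (252 * (1 / nrm q + R + nrm x) *
            (Real.exp 14 * Real.exp (-(R * nrm q))))) + 22 * Real.pi ^ 2 * (252 * Real.exp 14) *
            (R ^ 2 * (Real.exp (-(R * cut / 2)) * Real.exp (-(R / 2 * nrm q)))) := by
          have : 0 ≤ 22 * Real.pi ^ 2 * (252 * Real.exp 14) *
            (R ^ 2 * (Real.exp (-(R * cut / 2)) * Real.exp (-(R / 2 * nrm q)))) := by positivity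
          linarith
      _ = _ := by ring
  · rw [zero_sub, abs_neg]
    refine (ff_le hR x j q).trans ?_
    rw [mem_momenta hL0, not_and_or, not_not, not_lt] at h
    have hc : 66 * Real.pi ^ 2 * 14 ≤ CC := by
      unfold CC
      nlinarith
    rcases h with h | h
    · -- the zero cell
      have hk0 : nrm k = 0 := by
        rw [nrm_eq_zero, hkdef, wave_zero_iff hL0]
        exact h
      have hq14 : nrm q ≤ 14 := by linarith
      have h1 : 1 ≤ 14 * (1 / nrm q) := by
        rw [mul_one_div, le_div_iff₀ hq]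
        linarith
      have hinv : 0 < 1 / nrm q := by positivity
      calc 66 * Real.pi ^ 2 * (R ^ 2 * Real.exp (-(R * nrm q)))
          = 66 * Real.pi ^ 2 * (R ^ 2 * (1 * Real.exp (-(R * nrm q)))) := by ring
        _ ≤ 66 * Real.pi ^ 2 * (R ^ 2 * ((14 * (1 / nrm q)) * Real.exp (-(R * nrm q)))) := by
            apply mul_le_mul_of_nonneg_left _ (by positivity)
            apply mul_le_mul_of_nonneg_left _ (by positivity)
            exact mul_le_mul_of_nonneg_right h1 hE.le
        _ = 66 * Real.pi ^ 2 * 14 * (R ^ 2 * ((1 / nrm q) * Real.exp (-(R * nrm q)))) := by ring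
        _ ≤ CC * (R ^ 2 * ((1 / nrm q + R + nrm x) * Real.exp (-(R * nrm q)) +
              Real.exp (-(R * cut / 2)) * Real.exp (-(R / 2 * nrm q)))) := by
            apply mul_le_mul hc _ (by positivity) CC_pos.le
            apply mul_le_mul_of_nonneg_left _ (by positivity)
            have : (1 / nrm q) * Real.exp (-(R * nrm q)) ≤
                (1 / nrm q + R + nrm x) * Real.exp (-(R * nrm q)) :=
              mul_le_mul_of_nonneg_right (by linarith) hE.le
            linarith
    · -- large momenta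
      rw [freq_eq, ← hkdef] at h
      have hkq : nrm k ≤ nrm q + nrm (k - q) := nrm_le_add k q
      have hq14 : cut - 14 ≤ nrm q := by linarith
      have h1 : Real.exp (-(R * nrm q)) ≤
          Real.exp 14 * (Real.exp (-(R * cut / 2)) * Real.exp (-(R / 2 * nrm q))) := by
        rw [← Real.exp_add, ← Real.exp_add]
        apply Real.exp_le_exp.mpr
        nlinarith
      have h2 : 0 ≤ (1 / nrm q + R + nrm x) * Real.exp (-(R * nrm q)) := by positivity
      calc 66 * Real.pi ^ 2 * (R ^ 2 * Real.exp (-(R * nrm q)))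
          ≤ 66 * Real.pi ^ 2 * (R ^ 2 * (Real.exp 14 * (Real.exp (-(R * cut / 2)) *
              Real.exp (-(R / 2 * nrm q))))) := by
            apply mul_le_mul_of_nonneg_left _ (by positivity)
            exact mul_le_mul_of_nonneg_left h1 (by positivity)
        _ = (66 * Real.pi ^ 2 * Real.exp 14) * (R ^ 2 * (Real.exp (-(R * cut / 2)) *
              Real.exp (-(R / 2 * nrm q)))) := by ring
        _ ≤ CC * (R ^ 2 * ((1 / nrm q + R + nrm x) * Real.exp (-(R * nrm q)) +
              Real.exp (-(R * cut / 2)) * Real.exp (-(R / 2 * nrm q)))) := by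
            apply mul_le_mul _ _ (by positivity) CC_pos.le
            · unfold CC
              have : 0 < Real.pi ^ 2 * Real.exp 14 := by positivity
              nlinarith
            · apply mul_le_mul_of_nonneg_left _ (by positivity)
              linarith

/-- `∫ e^{-|q|}`. -/
noncomputable def EE : ℝ := ∫ q : X3, Real.exp (-nrm q)

/-- `∫ e^{-|q|}/|q|`. -/
noncomputable def YY : ℝ := ∫ q : X3, yuk q

lemma EE_nonneg : 0 ≤ EE := integral_nonneg fun _ => (Real.exp_pos _).le
lemma YY_nonneg : 0 ≤ YY := integral_nonneg fun _ => yuk_nonneg _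

lemma integrable_expR {R : ℝ} (hR : 0 < R) : Integrable fun q : X3 => Real.exp (-(R * nrm q)) := by
  simpa using integrable_pow_exp 0 hR

lemma integral_expR {R : ℝ} (hR : 0 < R) :
    ∫ q : X3, Real.exp (-(R * nrm q)) = (R ^ 3)⁻¹ * EE := by
  have h := Measure.integral_comp_smul (volume : Measure X3) (fun q => Real.exp (-nrm q)) R
  simp only [nrm_smul hR.le] at h
  rw [h, smul_eq_mul]
  simp only [Module.finrank_fintype_fun_eq_card, Fintype.card_fin]
  rw [abs_of_pos (by positivity)]
  rfl

lemma integrable_yukR {R : ℝ} (hR : 0 < R) :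
    Integrable fun q : X3 => 1 / nrm q * Real.exp (-(R * nrm q)) := by
  have := integrable_pow_exp_div 0 hR
  refine this.congr (Filter.Eventually.of_forall fun q => ?_)
  simp only [pow_zero]
  ring

lemma integral_yukR {R : ℝ} (hR : 0 < R) :
    ∫ q : X3, 1 / nrm q * Real.exp (-(R * nrm q)) = (R ^ 2)⁻¹ * YY := by
  have h := Measure.integral_comp_smul (volume : Measure X3) yuk R
  have h2 : ∀ q : X3, 1 / nrm q * Real.exp (-(R * nrm q)) = R * yuk (R • q) := by
    intro q
    unfold yuk
    rw [nrm_smul hR.le]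
    rcases eq_or_ne (nrm q) 0 with h0 | h0
    · rw [h0]; simp
    · field_simp
  simp only [h2]
  rw [integral_const_mul, h, smul_eq_mul]
  simp only [Module.finrank_fintype_fun_eq_card, Fintype.card_fin]
  rw [abs_of_pos (by positivity)]
  unfold YY
  field_simp

lemma exp_decay {s : ℝ} (hs : 0 < s) : Real.exp (-(s / 2)) ≤ 48 * s ^ (-3 : ℤ) := by
  have h1 : (s / 2) ^ 3 / 6 ≤ Real.exp (s / 2) := by
    have := Real.pow_div_factorial_le_exp (s / 2) (by positivity) 3
    simpa [Nat.factorial] using this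
  rw [Real.exp_neg, zpow_neg]
  have h2 : 0 < (s / 2) ^ 3 / 6 := by positivity
  calc (Real.exp (s / 2))⁻¹ ≤ ((s / 2) ^ 3 / 6)⁻¹ := inv_anti₀ h2 h1
    _ = 48 * (s ^ (3 : ℤ))⁻¹ := by
      have : s ^ (3 : ℤ) = s ^ 3 := by norm_cast
      rw [this]
      field_simp
      norm_num

/-- The final constant. -/
noncomputable def CF : ℝ := CC * (YY + EE + 384 * EE)

lemma CF_nonneg : 0 ≤ CF := by
  unfold CF
  have := CC_pos
  have := YY_nonneg
  have := EE_nonneg
  positivity

lemma integrable_ff {R : ℝ} (hR : 0 < R) (x : X3) (j : Fin 3) : Integrable (ff R x j) := by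
  refine (((integrable_expR hR).const_mul (R ^ 2)).const_mul (66 * Real.pi ^ 2)).mono' ?_
    (Filter.Eventually.of_forall fun q => ff_le hR x j q)
  unfold ff
  have h1 : Measurable fun q : X3 => R • q := measurable_id.const_smul R
  have h2 := (measurable_ampA j).comp h1
  have h3 := (measurable_ampB j).comp h1
  have h4 := (measurable_dot x).measurable
  have h5 := Real.measurable_cos.comp h4
  have h6 := Real.measurable_sin.comp h4
  exact (((h2.mul h5).sub (h3.mul h6)).const_mul (R ^ 2)).aestronglyMeasurable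

lemma main_diff {R cut L : ℝ} (hR : 0 < R) (hR1 : R ≤ 1) (hcut : 1 ≤ cut) (hL : 1 ≤ L)
    (x : X3) (j : Fin 3) :
    |1 / L ^ 3 * (∑ n ∈ momenta cut L, ff R x j (wave L n)) -
      (2 * Real.pi) ^ (-(3 : ℤ)) * ∫ q, ff R x j q| ≤
      CF * (1 + nrm x / R + R⁻¹ * (R * cut) ^ (-3 : ℤ)) := by
  have hL0 : 0 < L := by linarith
  have hx := nrm_nonneg x
  rw [sum_eq hL0, ← mul_sub, ← integral_sub (integrable_stepf hL0 _ _) (integrable_ff hR x j),
    abs_mul, abs_of_nonneg (by positivity : (0 : ℝ) ≤ (2 * Real.pi) ^ (-(3 : ℤ)))]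
  set Dq : X3 → ℝ := fun q => CC * (R ^ 2 * ((1 / nrm q + R + nrm x) * Real.exp (-(R * nrm q)) +
        Real.exp (-(R * cut / 2)) * Real.exp (-(R / 2 * nrm q)))) with hDq
  have hDeq : ∀ q, Dq q = CC * (R ^ 2 * ((1 / nrm q * Real.exp (-(R * nrm q)) +
      (R + nrm x) * Real.exp (-(R * nrm q))) +
        Real.exp (-(R * cut / 2)) * Real.exp (-(R / 2 * nrm q)))) := by
    intro q
    simp only [hDq]
    ring
  have i1 := integrable_yukR hR
  have i2 := (integrable_expR hR).const_mul (R + nrm x)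
  have i3 := (integrable_expR (half_pos hR)).const_mul (Real.exp (-(R * cut / 2)))
  have hDi : Integrable Dq := by
    have : Dq = fun q => CC * (R ^ 2 * ((1 / nrm q * Real.exp (-(R * nrm q)) +
      (R + nrm x) * Real.exp (-(R * nrm q))) +
        Real.exp (-(R * cut / 2)) * Real.exp (-(R / 2 * nrm q)))) := funext hDeq
    rw [this]
    exact (((i1.add i2).add i3).const_mul (R ^ 2)).const_mul CC
  have hint : ∫ q, Dq q = CC * (R ^ 2 * (((R ^ 2)⁻¹ * YY + (R + nrm x) * ((R ^ 3)⁻¹ * EE)) +
      Real.exp (-(R * cut / 2)) * (((R / 2) ^ 3)⁻¹ * EE))) := by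
    simp only [hDeq]
    have i12 : Integrable fun q : X3 => 1 / nrm q * Real.exp (-(R * nrm q)) +
        (R + nrm x) * Real.exp (-(R * nrm q)) := i1.add i2
    rw [integral_const_mul, integral_const_mul, integral_add i12 i3,
      integral_add i1 i2, integral_const_mul, integral_const_mul, integral_yukR hR,
      integral_expR hR, integral_expR (half_pos hR)]
  have hbd : |∫ q, (stepf L (momenta cut L) (fun n => ff R x j (wave L n)) q - ff R x j q)| ≤
      ∫ q, Dq q := by
    rw [← Real.norm_eq_abs]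
    apply norm_integral_le_of_norm_le hDi
    filter_upwards [ae_nrm_pos] with q hq
    exact pointwise hR hR1 hL x j hq
  have hC := CC_pos
  have hY := YY_nonneg
  have hE := EE_nonneg
  have hRc : 0 < R * cut := by positivity
  have hexp := exp_decay hRc
  have hz : 0 < (R * cut) ^ (-3 : ℤ) := by positivity
  calc (2 * Real.pi) ^ (-(3 : ℤ)) *
        |∫ q, (stepf L (momenta cut L) (fun n => ff R x j (wave L n)) q - ff R x j q)|
      ≤ 1 * ∫ q, Dq q := mul_le_mul twopi_le hbd (abs_nonneg _) (by norm_num)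
    _ = CC * (YY + EE + nrm x / R * EE + 8 * R⁻¹ * EE * Real.exp (-(R * cut / 2))) := by
        rw [one_mul, hint]
        field_simp
        ring
    _ ≤ CC * (YY + EE + nrm x / R * EE + 8 * R⁻¹ * EE * (48 * (R * cut) ^ (-3 : ℤ))) := by
        apply mul_le_mul_of_nonneg_left _ hC.le
        have : 8 * R⁻¹ * EE * Real.exp (-(R * cut / 2)) ≤
            8 * R⁻¹ * EE * (48 * (R * cut) ^ (-3 : ℤ)) :=
          mul_le_mul_of_nonneg_left hexp (by positivity)
        linarith
    _ ≤ _ := by
        unfold CF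
        rw [mul_assoc CC]
        apply mul_le_mul_of_nonneg_left _ hC.le
        have h1 : 0 ≤ nrm x / R := by positivity
        have h2 : 0 ≤ R⁻¹ * (R * cut) ^ (-3 : ℤ) := by positivity
        set u := nrm x / R
        set v := R⁻¹ * (R * cut) ^ (-3 : ℤ) with hv
        have e : 8 * R⁻¹ * EE * (48 * (R * cut) ^ (-3 : ℤ)) = 384 * EE * v := by
          rw [hv]; ring
        rw [e]
        nlinarith [mul_nonneg h1 hY, mul_nonneg h1 hE, mul_nonneg h2 hY, mul_nonneg h2 hE]

theorem trapRiem : TrapRiemannStatement := by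
  have hpi : 0 ≤ Real.pi ^ 2 := by positivity
  have hexp : ∀ q : X3, Real.exp (-nrm q) ≤ 1 := fun q => by
    rw [Real.exp_le_one_iff]
    linarith [nrm_nonneg q]
  set C0 : ℝ := 66 * Real.pi ^ 2 with hC0def
  have hC0 : 0 ≤ C0 := by positivity
  have hAb : ∀ q j, |ampA q j| ≤ C0 := fun q j => by
    have h1 := abs_ampA_le q j
    have h2 : 44 * Real.pi ^ 2 * Real.exp (-nrm q) ≤ 44 * Real.pi ^ 2 * 1 :=
      mul_le_mul_of_nonneg_left (hexp q) (by positivity)
    linarith
  have hBb : ∀ q j, |ampB q j| ≤ C0 := fun q j => by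
    have h1 := abs_ampB_le q j
    have h2 : 22 * Real.pi ^ 2 * Real.exp (-nrm q) ≤ 22 * Real.pi ^ 2 * 1 :=
      mul_le_mul_of_nonneg_left (hexp q) (by positivity)
    linarith
  have hCF := CF_nonneg
  refine ⟨24576 * C0 ^ 2 + 18 * CF ^ 2 + 1, ampA, ampB, gau, by positivity, contDiff_gau, ampA_neg,
    ampB_neg, dot_ampA, dot_ampB, ?_, ?_⟩
  · intro R cut L hR hcut hL
    have hL0 : 0 < L := by linarith
    have hsq : ∀ v : X3, (∀ j, |v j| ≤ C0) → sq v ≤ 3 * C0 ^ 2 := by
      intro v hv
      have h1 : ∀ j, v j ^ 2 ≤ C0 ^ 2 := fun j => sq_le_sq' (by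
        have := abs_le.mp (hv j)
        linarith [this.1]) (abs_le.mp (hv j)).2
      unfold sq
      rw [Fin.sum_univ_three]
      linarith [h1 0, h1 1, h1 2]
    have h1 : ∑ n ∈ momenta cut L, (sq (ampA (R • wave L n)) + sq (ampB (R • wave L n))) ≤
        (momenta cut L).card * (6 * C0 ^ 2) := by
      rw [← nsmul_eq_mul]
      apply Finset.sum_le_card_nsmul
      intro n _
      have := hsq _ (hAb (R • wave L n))
      have := hsq _ (hBb (R • wave L n))
      linarith
    have h2 := latt_card cut L hcut hL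
    have h3 : 0 ≤ 1 / L ^ 3 := by positivity
    calc 1 / L ^ 3 * ∑ n ∈ momenta cut L, (sq (ampA (R • wave L n)) + sq (ampB (R • wave L n)))
        ≤ 1 / L ^ 3 * ((momenta cut L).card * (6 * C0 ^ 2)) := mul_le_mul_of_nonneg_left h1 h3
      _ = (momenta cut L).card / L ^ 3 * (6 * C0 ^ 2) := by ring
      _ ≤ 4096 * cut ^ 3 * (6 * C0 ^ 2) := mul_le_mul_of_nonneg_right h2 (by positivity)
      _ = 24576 * C0 ^ 2 * cut ^ 3 := by ring
      _ ≤ _ := by
        have : 0 ≤ cut ^ 3 := by positivity
        nlinarith [sq_nonneg CF]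
  · intro R cut L hR hR1 hcut hRc hL x
    have hT : ∀ j, R⁻¹ * trapA (R⁻¹ • x) j + R⁻¹ * fderiv ℝ gau (R⁻¹ • x) (Pi.single j 1) =
        (2 * Real.pi) ^ (-(3 : ℤ)) * ∫ q, ff R x j q := by
      intro j
      have h1 := trap_eq (R⁻¹ • x) j
      rw [← mul_add, h1]
      have h2 : ∀ q : X3, ff R x j q = R ^ 2 * (fun p : X3 => ampA p j *
          Real.cos (dot p (R⁻¹ • x)) - ampB p j * Real.sin (dot p (R⁻¹ • x))) (R • q) := by
        intro q
        unfold ff
        simp only
        rw [dot_smul_smul hR q x]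
      simp only [h2]
      rw [integral_const_mul, Measure.integral_comp_smul (volume : Measure X3)
        (fun p : X3 => ampA p j * Real.cos (dot p (R⁻¹ • x)) -
          ampB p j * Real.sin (dot p (R⁻¹ • x))) R, smul_eq_mul]
      simp only [Module.finrank_fintype_fun_eq_card, Fintype.card_fin]
      rw [abs_of_pos (by positivity)]
      field_simp
    have hx := nrm_nonneg x
    have hRc0 : 0 < R * cut := by linarith
    set D : ℝ := R ^ (-2 : ℤ) * (R * cut) ^ (-6 : ℤ) with hD
    have hD0 : 0 ≤ D := by positivity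
    have hD2 : (R⁻¹ * (R * cut) ^ (-3 : ℤ)) ^ 2 = D := by
      rw [hD, mul_pow]
      congr 1
      · rw [inv_pow, zpow_neg]
        norm_cast
      · rw [← zpow_natCast, ← zpow_mul]
        norm_num
    have hX : (nrm x / R) ^ 2 = sq x / R ^ 2 := by
      rw [div_pow, nrm_sq]
    have hX0 : 0 ≤ sq x / R ^ 2 := div_nonneg (sq_nonneg' x) (by positivity)
    have key : ∀ j, (1 / L ^ 3 * (∑ n ∈ momenta cut L, R ^ 2 *
          (ampA (R • wave L n) j * Real.cos (dot (wave L n) x) -
            ampB (R • wave L n) j * Real.sin (dot (wave L n) x))) -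
          (R⁻¹ * trapA (R⁻¹ • x) j + R⁻¹ * fderiv ℝ gau (R⁻¹ • x) (Pi.single j 1))) ^ 2 ≤
        6 * CF ^ 2 * ((D + 1) * (1 + sq x / R ^ 2)) := by
      intro j
      rw [hT j]
      have h1 := main_diff (cut := cut) hR hR1 hcut hL x j
      have h2 : ((1 / L ^ 3 * (∑ n ∈ momenta cut L, R ^ 2 *
          (ampA (R • wave L n) j * Real.cos (dot (wave L n) x) -
            ampB (R • wave L n) j * Real.sin (dot (wave L n) x))) -
          (2 * Real.pi) ^ (-(3 : ℤ)) * ∫ q, ff R x j q)) ^ 2 ≤
          (CF * (1 + nrm x / R + R⁻¹ * (R * cut) ^ (-3 : ℤ))) ^ 2 := by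
        rw [← sq_abs]
        exact pow_le_pow_left₀ (abs_nonneg _) h1 2
      refine h2.trans ?_
      rw [mul_pow, mul_comm 6, mul_assoc]
      apply mul_le_mul_of_nonneg_left _ (sq_nonneg CF)
      set u := nrm x / R with hu
      set v := R⁻¹ * (R * cut) ^ (-3 : ℤ) with hv
      rw [← hD2, ← hX]
      nlinarith [sq_nonneg (1 - u), sq_nonneg (1 - v), sq_nonneg (u - v), sq_nonneg (u * v),
        sq_nonneg u, sq_nonneg v]
    rw [Fin.sum_univ_three]
    have hP : 0 ≤ (D + 1) * (1 + sq x / R ^ 2) := by positivity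
    calc _ ≤ 3 * (6 * CF ^ 2 * ((D + 1) * (1 + sq x / R ^ 2))) := by
          linarith [key 0, key 1, key 2]
      _ = 18 * CF ^ 2 * ((D + 1) * (1 + sq x / R ^ 2)) := by ring
      _ ≤ (24576 * C0 ^ 2 + 18 * CF ^ 2 + 1) * ((D + 1) * (1 + sq x / R ^ 2)) := by
          apply mul_le_mul_of_nonneg_right _ hP
          nlinarith [sq_nonneg C0]
      _ = _ := by ring

end Pool.Agent.Helper49_Pauli.H14
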